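import Pool.Agent.Lib_helper67.CircDefs
import Pool.Agent.Lib_helper67.CircMain

set_option autoImplicit false

namespace Pool.Agent.Results.MP_250e3d_co.Classification

open Pool.Agent.Lib_helper67.Circ

/-- For every even order `2m` and every inverse-closed `S`, the circulant graph
`Cay(Z_{2m}, (S \ {m}) + m)` has an automorphism fixing `0` and moving `m` if and only if there
are subgroups `K`, `H` with `|K|` twice an odd number, `|H| > 2` and
`(S \ K_o) + H ⊆ S ∪ K_o`. -/
theorem result (m : ℕ) (hm : 0 < m) (S : Set (ZMod (2 * m))) (hS : ∀ s ∈ S, -s ∈ S) :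
    MovesInvolution (m : ZMod (2 * m)) S ↔
      ∃ K H : AddSubgroup (ZMod (2 * m)), 2 < Nat.card H ∧ Absorbs S K H := by
  constructor
  · intro h
    obtain ⟨K, H, h1, h2, h3⟩ := forward hm hS h
    exact ⟨K, H, h2, h1, h3⟩
  · rintro ⟨K, H, h2, h1, h3⟩
    exact backward hm h1 h2 h3

end Pool.Agent.Results.MP_250e3d_co.Classification
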