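import Pool.Agent.Lib_helper67.CircDefs
import Pool.Agent.Lib_helper67.CircFour

set_option autoImplicit false

namespace Pool.Agent.Results.MP_250e3d_co.PowersOfTwo

open Pool.Agent.Lib_helper67.Circ

/-- Answer to Q1 for every `h`: if `h` is a power of two the answer is yes; for every other
`h` it is no, with a connected, non-bipartite, twin-free counterexample. -/
theorem result (h : ℕ) (hh : 0 < h) :
    ((∃ a : ℕ, h = 2 ^ a) → ∀ S : Set (ZMod (4 * h)), (∀ s ∈ S, -s ∈ S) →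
      MovesInvolution ((2 * h : ℕ) : ZMod (4 * h)) S →
        ∃ K : AddSubgroup (ZMod (4 * h)),
          Absorbs S K (AddSubgroup.zmultiples ((h : ℕ) : ZMod (4 * h)))) ∧
    ((¬ ∃ a : ℕ, h = 2 ^ a) → ∃ S : Set (ZMod (4 * h)), (∀ s ∈ S, -s ∈ S) ∧
      (0 : ZMod (4 * h)) ∉ S ∧
      (SimpleGraph.circulantGraph S).Connected ∧
      ¬ (SimpleGraph.circulantGraph S).IsBipartite ∧
      (∀ x y, (SimpleGraph.circulantGraph S).neighborSet x =
        (SimpleGraph.circulantGraph S).neighborSet y → x = y) ∧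
      MovesInvolution ((2 * h : ℕ) : ZMod (4 * h)) S ∧
      ¬ ∃ K : AddSubgroup (ZMod (4 * h)),
          Absorbs S K (AddSubgroup.zmultiples ((h : ℕ) : ZMod (4 * h)))) := by
  refine ⟨fun ha S hS haut => ?_, fun hna => ?_⟩
  · obtain ⟨K, h1, h2⟩ := pow_two_case hh ha hS haut
    exact ⟨K, h1, h2⟩
  · rcases Nat.eq_two_pow_or_exists_odd_prime_and_dvd h with ha | ⟨p, hp, hd, hpo⟩
    · exact absurd ha hna
    · obtain ⟨h1, h2, h3, h4, h5, h6, h7⟩ := counter hh hp hpo hd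
      exact ⟨cS h p, h1, h2, h3, h4, h5, h6, fun ⟨K, hK1, hK2⟩ => h7 K hK1 hK2⟩

end Pool.Agent.Results.MP_250e3d_co.PowersOfTwo
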